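import Pool.Agent.H60.LQ.Six

/-!
# LQ6, row PUR6: the gain for the exponent `171 / 101` in dimension six
-/

set_option autoImplicit false

namespace Pool.LQ

open Finset Real
open Pool.Agent.H49.Ent Pool.Agent.H32.Dense Pool.Agent.H24.KTH

namespace PUR680

lemma nx2 : nx 2 = 7 / 4 := by unfold nx; norm_num

lemma nx74 : nx (7 / 4) = 171 / 101 := by unfold nx; norm_num

lemma kpn {a : ℝ} (h1 : 1 ≤ a) (h2 : a ≤ 2) : 0 ≤ kp a := by
  unfold kp
  apply div_nonneg
  · nlinarith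
  · nlinarith

end PUR680

open PUR680 in
theorem pur6 (hLZR : LZRStmt) (hLOC : LOCStmt) (hSTP : STP4Stmt) (hGAG : GAGStmt)
    (hSBP : SBPStmt) : PUR6Stmt := by
  have s0 : AKS 5 2 7.007 := by
    have h := hLOC 5 2 4 (by norm_num) (by norm_num) (hLZR 5) (1 / 1000) (by norm_num)
    have e : max (4 : ℝ) ((1 + 1 / 1000) * (2 + (5 : ℕ))) = 7.007 := by norm_num
    rwa [e] at h
  have s1 : AKSG 5 (7 / 4) 6.879375 := by
    have h := hSTP 5 2 7.007 (by norm_num) (by norm_num) (by norm_num) (by norm_num) s0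
    have e : lp3 2 7.007 = 6.879375 := by unfold lp3; norm_num
    rw [nx2, e] at h
    exact hGAG 5 _ _ _ (kpn (by norm_num) (by norm_num)) h
  have s2 : AKS 5 (7 / 4) 6.879375 := by
    have h := hLOC 5 (7 / 4) 6.879375 (by norm_num) (by norm_num) s1 (1 / 100) (by norm_num)
    have e : max (6.879375 : ℝ) ((1 + 1 / 100) * (7 / 4 + (5 : ℕ))) = 6.879375 := by norm_num
    rwa [e] at h
  have s3 : AKSG 5 (171 / 101) 7.05 := by
    have h := hSTP 5 (7 / 4) 6.879375 (by norm_num) (by norm_num) (by norm_num) (by norm_num) s2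
    rw [nx74] at h
    have h' := hGAG 5 _ _ _ (kpn (by norm_num) (by norm_num)) h
    have e : lp3 (7 / 4) 6.879375 ≤ 7.05 := by unfold lp3; norm_num
    intro ε hε
    obtain ⟨B₀, B₁, hB, hG⟩ := h' ε hε
    refine ⟨B₀, B₁, hB, ?_⟩
    intro J Ω _ ζ p Z v u τ hf
    have := hG J Ω ζ p Z v u τ hf
    have hK := mul_le_mul_of_nonneg_right e (Kf_nonneg hf)
    linarith
  have s4 : AKS 5 (171 / 101) 7.05 := by
    have h := hLOC 5 (171 / 101) 7.05 (by norm_num) (by norm_num) s3 (1 / 100) (by norm_num)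
    have e : max (7.05 : ℝ) ((1 + 1 / 100) * (171 / 101 + (5 : ℕ))) = 7.05 := by norm_num
    rwa [e] at h
  have s5 := hSTP 5 (171 / 101) 7.05 (by norm_num) (by norm_num) (by norm_num) (by norm_num) s4
  have e1 : nx (171 / 101) ≤ 171 / 101 := by unfold nx; norm_num
  have e2 : lp3 (171 / 101) 7.05 + (171 / 101 - nx (171 / 101)) ≤ 7.25 := by
    unfold lp3 nx; norm_num
  intro ε hε
  obtain ⟨B₀, B₁, hB, hG⟩ := s5 ε hε
  refine ⟨B₀, B₁, hB, ?_⟩
  intro J Ω _ ζ p Z v u τ h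
  have hK := Kf_nonneg h
  obtain ⟨-, hS1, -⟩ := hSBP 5 J Ω ζ p Z v u τ h
  have hSf : 0 ≤ Sf (2 ^ J) p Z v u τ := by
    unfold Sf
    exact CH_nonneg h.hp _ _
  have hSb : 0 ≤ Sb (2 ^ J) p Z v u τ - J * Real.log 2 + Kf (2 ^ J) p (bv Z v) τ := by
    unfold Sb
    linarith
  have hm := mul_nonneg (sub_nonneg.mpr e1) hSb
  have hk2 := mul_le_mul_of_nonneg_right e2 hK
  have := hG J Ω ζ p Z v u τ h
  linarith

end Pool.LQ
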