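import Pool.Agent.H60.LQ.Stmts

/-!
# The logarithmic kernel is positive definite up to a constant
-/

set_option autoImplicit false

namespace Pool.LQ.PSD80

open Finset Real

/-- The number of integers in two intervals of length `2 ^ k`. -/
noncomputable def N (k : ℕ) (x y : ℤ) : ℝ := ((Ioc (x - 2 ^ k) x ∩ Ioc (y - 2 ^ k) y).card : ℝ)

lemma N_eq (k : ℕ) (x y : ℤ) : N k x y = max 0 (2 ^ k - |(x : ℝ) - y|) := by
  unfold N
  rw [Ioc_inter_Ioc, Int.card_Ioc]
  have h0 : ∀ z : ℤ, ((z.toNat : ℕ) : ℝ) = max 0 (z : ℝ) := by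
    intro z
    rcases le_total 0 z with h | h
    · have h1 : ((z.toNat : ℕ) : ℝ) = (z : ℝ) := by
        exact_mod_cast congrArg (fun t : ℤ => (t : ℝ)) (Int.toNat_of_nonneg h)
      rw [h1, max_eq_right (by exact_mod_cast h)]
    · rw [Int.toNat_eq_zero.mpr h, max_eq_left (by exact_mod_cast h)]
      simp
  rw [h0]
  congr 1
  push_cast
  rcases le_total (x : ℝ) y with h | h
  · rw [min_eq_left h, max_eq_right (by linarith), abs_of_nonpos (by linarith)]
    ring
  · rw [min_eq_right h, max_eq_left (by linarith), abs_of_nonneg (by linarith)]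
    ring

lemma N_symm (k : ℕ) (x y : ℤ) : N k x y = N k y x := by
  unfold N
  rw [inter_comm]

lemma psd (k : ℕ) (S : Finset ℤ) (a : ℤ → ℝ) :
    0 ≤ ∑ x ∈ S, ∑ y ∈ S, a x * a y * N k x y := by
  classical
  set T := S.biUnion (fun x => Ioc (x - 2 ^ k) x) with hT
  have h1 : ∀ x ∈ S, ∀ y, N k x y = ∑ t ∈ T,
      (if t ∈ Ioc (x - 2 ^ k) x then (1 : ℝ) else 0) *
        (if t ∈ Ioc (y - 2 ^ k) y then (1 : ℝ) else 0) := by
    intro x hx y
    have e : Ioc (x - 2 ^ k) x ∩ Ioc (y - 2 ^ k) y =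
        T.filter (fun t => t ∈ Ioc (x - 2 ^ k) x ∧ t ∈ Ioc (y - 2 ^ k) y) := by
      ext t
      rw [mem_inter, mem_filter]
      constructor
      · intro ht
        exact ⟨mem_biUnion.mpr ⟨x, hx, ht.1⟩, ht⟩
      · intro ht
        exact ht.2
    unfold N
    rw [e, card_filter]
    push_cast
    refine sum_congr rfl fun t _ => ?_
    by_cases h1 : t ∈ Ioc (x - 2 ^ k) x <;> by_cases h2 : t ∈ Ioc (y - 2 ^ k) y <;>
      simp [h1, h2]
  have h2 : ∑ x ∈ S, ∑ y ∈ S, a x * a y * N k x y =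
      ∑ t ∈ T, (∑ x ∈ S, a x * (if t ∈ Ioc (x - 2 ^ k) x then (1 : ℝ) else 0)) ^ 2 := by
    have h3 : ∀ x ∈ S, ∑ y ∈ S, a x * a y * N k x y = ∑ t ∈ T, ∑ y ∈ S,
        (a x * (if t ∈ Ioc (x - 2 ^ k) x then (1 : ℝ) else 0)) *
          (a y * (if t ∈ Ioc (y - 2 ^ k) y then (1 : ℝ) else 0)) := by
      intro x hx
      rw [sum_comm]
      refine sum_congr rfl fun y _ => ?_
      rw [h1 x hx y, mul_sum]
      refine sum_congr rfl fun t _ => ?_
      ring
    rw [sum_congr rfl h3, sum_comm]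
    refine sum_congr rfl fun t _ => ?_
    rw [sq, sum_mul_sum]
  rw [h2]
  exact sum_nonneg fun t _ => sq_nonneg _

/-- The sum of the kernels. -/
noncomputable def E (J : ℕ) (x y : ℤ) : ℝ := ∑ k ∈ range (J + 1), N k x y / 2 ^ k

lemma E_symm (J : ℕ) (x y : ℤ) : E J x y = E J y x := by
  unfold E
  refine sum_congr rfl fun k _ => ?_
  rw [N_symm]

lemma psdE (J : ℕ) (S : Finset ℤ) (a : ℤ → ℝ) :
    0 ≤ ∑ x ∈ S, ∑ y ∈ S, a x * a y * E J x y := by
  have h : ∑ x ∈ S, ∑ y ∈ S, a x * a y * E J x y =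
      ∑ k ∈ range (J + 1), (∑ x ∈ S, ∑ y ∈ S, a x * a y * N k x y) / 2 ^ k := by
    have h3 : ∀ x ∈ S, ∑ y ∈ S, a x * a y * E J x y =
        ∑ k ∈ range (J + 1), ∑ y ∈ S, a x * a y * N k x y / 2 ^ k := by
      intro x _
      rw [sum_comm]
      refine sum_congr rfl fun y _ => ?_
      unfold E
      rw [mul_sum]
      refine sum_congr rfl fun k _ => ?_
      ring
    rw [sum_congr rfl h3, sum_comm]
    refine sum_congr rfl fun k _ => ?_
    rw [sum_div]
    refine sum_congr rfl fun x _ => ?_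
    rw [sum_div]
  rw [h]
  exact sum_nonneg fun k _ => div_nonneg (psd k S a) (by positivity)

lemma crossE (J : ℕ) (S : Finset ℤ) (μ ν : ℤ → ℝ) :
    ∑ x ∈ S, ∑ y ∈ S, μ x * ν y * E J x y ≤
      ((∑ x ∈ S, ∑ y ∈ S, μ x * μ y * E J x y) + ∑ x ∈ S, ∑ y ∈ S, ν x * ν y * E J x y) / 2 := by
  have h := psdE J S (fun x => μ x - ν x)
  have h1 : ∑ x ∈ S, ∑ y ∈ S, (μ x - ν x) * (μ y - ν y) * E J x y =
      (∑ x ∈ S, ∑ y ∈ S, μ x * μ y * E J x y) + (∑ x ∈ S, ∑ y ∈ S, ν x * ν y * E J x y) -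
        (∑ x ∈ S, ∑ y ∈ S, μ x * ν y * E J x y) - ∑ x ∈ S, ∑ y ∈ S, ν x * μ y * E J x y := by
    rw [← sum_add_distrib, ← sum_sub_distrib, ← sum_sub_distrib]
    refine sum_congr rfl fun x _ => ?_
    rw [← sum_add_distrib, ← sum_sub_distrib, ← sum_sub_distrib]
    refine sum_congr rfl fun y _ => ?_
    ring
  have h2 : ∑ x ∈ S, ∑ y ∈ S, ν x * μ y * E J x y = ∑ x ∈ S, ∑ y ∈ S, μ x * ν y * E J x y := by
    rw [sum_comm]
    refine sum_congr rfl fun x _ => sum_congr rfl fun y _ => ?_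
    rw [E_symm J y x]
    ring
  linarith

/-! ### Comparison with the logarithm -/

lemma tail_le (D n : ℕ) : ∑ k ∈ range n, (if D < 2 ^ k then (D : ℝ) / 2 ^ k else 0) ≤
    2 - 2 * min 1 ((D : ℝ) / 2 ^ n) := by
  induction n with
  | zero =>
    have : min 1 ((D : ℝ) / 2 ^ 0) ≤ 1 := min_le_left _ _
    simp only [range_zero, sum_empty]
    linarith
  | succ n ih =>
    rw [sum_range_succ]
    have hp : (0 : ℝ) < 2 ^ n := by positivity
    by_cases h : D < 2 ^ n
    · have h' : (D : ℝ) < 2 ^ n := by exact_mod_cast h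
      have h1 : (D : ℝ) / 2 ^ n ≤ 1 := by
        rw [div_le_one hp]; exact h'.le
      have h2 : (D : ℝ) / 2 ^ (n + 1) ≤ 1 := by
        rw [div_le_one (by positivity), pow_succ]
        linarith
      have h3 : (D : ℝ) / 2 ^ (n + 1) = (D : ℝ) / 2 ^ n / 2 := by
        rw [pow_succ]; field_simp
      rw [if_pos h, min_eq_right h2, h3]
      rw [min_eq_right h1] at ih
      linarith
    · have h' : (2 : ℝ) ^ n ≤ D := by exact_mod_cast not_lt.mp h
      have h1 : (1 : ℝ) ≤ (D : ℝ) / 2 ^ n := by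
        rw [one_le_div hp]; exact h'
      have h2 : min 1 ((D : ℝ) / 2 ^ (n + 1)) ≤ 1 := min_le_left _ _
      rw [if_neg h, add_zero]
      rw [min_eq_left h1] at ih
      linarith

lemma N_div (k : ℕ) (x y : ℤ) : N k x y / 2 ^ k =
    (if (x - y).natAbs < 2 ^ k then (1 : ℝ) else 0) -
      (if (x - y).natAbs < 2 ^ k then ((x - y).natAbs : ℝ) / 2 ^ k else 0) := by
  have hD : ((x - y).natAbs : ℝ) = |(x : ℝ) - y| := by
    rw [Nat.cast_natAbs]
    push_cast
    rfl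
  rw [N_eq, ← hD]
  have hp : (0 : ℝ) < 2 ^ k := by positivity
  by_cases h : (x - y).natAbs < 2 ^ k
  · have h' : ((x - y).natAbs : ℝ) < 2 ^ k := by exact_mod_cast h
    rw [if_pos h, if_pos h, max_eq_right (by linarith)]
    field_simp
  · have h' : (2 : ℝ) ^ k ≤ ((x - y).natAbs : ℝ) := by exact_mod_cast not_lt.mp h
    rw [if_neg h, if_neg h, max_eq_left (by linarith)]
    simp

lemma count (D J : ℕ) :
    |Real.log ((2 : ℝ) ^ J / min (max (D : ℝ) 1) (2 ^ J)) -
      Real.log 2 * ∑ k ∈ range (J + 1), (if D < 2 ^ k then (1 : ℝ) else 0)| ≤ 1 := by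
  have hl0 : 0 < Real.log 2 := Real.log_pos (by norm_num)
  have hl1 : Real.log 2 ≤ 1 := by linarith [Real.log_two_lt_d9]
  rcases Nat.eq_zero_or_pos D with rfl | hD
  · have h1 : ∑ k ∈ range (J + 1), (if 0 < 2 ^ k then (1 : ℝ) else 0) = J + 1 := by
      simp
    rw [h1]
    have h2 : min (max ((0 : ℕ) : ℝ) 1) (2 ^ J) = 1 := by
      rw [Nat.cast_zero, max_eq_right zero_le_one, min_eq_left (one_le_pow₀ (by norm_num))]
    rw [h2, div_one, Real.log_pow, abs_le]
    constructor <;> nlinarith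
  · have hD1 : (1 : ℝ) ≤ D := by exact_mod_cast hD
    set l := Nat.log 2 D with hl
    have a1 : 2 ^ l ≤ D := Nat.pow_log_le_self 2 hD.ne'
    have a2 : D < 2 ^ (l + 1) := Nat.lt_pow_succ_log_self (by norm_num) D
    have h1 : ∀ k, D < 2 ^ k ↔ l + 1 ≤ k := by
      intro k
      constructor
      · intro h
        by_contra h'
        have : 2 ^ k ≤ 2 ^ l := Nat.pow_le_pow_right (by norm_num) (by omega)
        omega
      · intro h
        exact lt_of_lt_of_le a2 (Nat.pow_le_pow_right (by norm_num) h)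
    have h2 : ∑ k ∈ range (J + 1), (if D < 2 ^ k then (1 : ℝ) else 0) = ((J - l : ℕ) : ℝ) := by
      rw [← Finset.sum_filter]
      have : (range (J + 1)).filter (fun k => D < 2 ^ k) = Ico (l + 1) (J + 1) := by
        ext k
        rw [mem_filter, mem_range, mem_Ico, h1]
        omega
      rw [this, sum_const, Nat.card_Ico]
      simp
    rw [h2, max_eq_left hD1]
    have b1 : (2 : ℝ) ^ l ≤ D := by exact_mod_cast a1
    have b2 : (D : ℝ) < 2 ^ (l + 1) := by exact_mod_cast a2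
    rcases lt_or_ge l J with hlJ | hlJ
    · have b3 : (2 : ℝ) ^ (l + 1) ≤ 2 ^ J := pow_le_pow_right₀ (by norm_num) (by omega)
      rw [min_eq_left (by linarith), Real.log_div (by positivity) (by positivity), Real.log_pow,
        Nat.cast_sub hlJ.le]
      have c1 : (l : ℝ) * Real.log 2 ≤ Real.log D := by
        rw [← Real.log_pow]
        exact Real.log_le_log (by positivity) b1
      have c2 : Real.log D ≤ ((l + 1 : ℕ) : ℝ) * Real.log 2 := by
        rw [← Real.log_pow]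
        exact Real.log_le_log (by positivity) b2.le
      push_cast at c2
      rw [abs_le]
      constructor <;> nlinarith
    · have b3 : (2 : ℝ) ^ J ≤ 2 ^ l := pow_le_pow_right₀ (by norm_num) hlJ
      rw [min_eq_right (by linarith), div_self (by positivity), Nat.sub_eq_zero_of_le hlJ]
      simp

lemma close (J : ℕ) (x y : ℤ) : |eg J x y - Real.log 2 * E J x y| ≤ 3 := by
  have hl0 : 0 < Real.log 2 := Real.log_pos (by norm_num)
  have hl1 : Real.log 2 ≤ 1 := by linarith [Real.log_two_lt_d9]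
  have hD : ((x - y).natAbs : ℝ) = |(x : ℝ) - y| := by
    rw [Nat.cast_natAbs]
    push_cast
    rfl
  have h1 := count (x - y).natAbs J
  rw [hD] at h1
  have h2 : E J x y = (∑ k ∈ range (J + 1), (if (x - y).natAbs < 2 ^ k then (1 : ℝ) else 0)) -
      ∑ k ∈ range (J + 1), (if (x - y).natAbs < 2 ^ k then ((x - y).natAbs : ℝ) / 2 ^ k
        else 0) := by
    unfold E
    rw [← sum_sub_distrib]
    exact sum_congr rfl fun k _ => N_div k x y
  have h3 := tail_le (x - y).natAbs (J + 1)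
  have h4 : 0 ≤ ∑ k ∈ range (J + 1), (if (x - y).natAbs < 2 ^ k then
      ((x - y).natAbs : ℝ) / 2 ^ k else 0) :=
    sum_nonneg fun k _ => by split_ifs <;> positivity
  have h5 : 0 ≤ min 1 (((x - y).natAbs : ℝ) / 2 ^ (J + 1)) := le_min zero_le_one (by positivity)
  set s1 := ∑ k ∈ range (J + 1), (if (x - y).natAbs < 2 ^ k then (1 : ℝ) else 0)
  set s2 := ∑ k ∈ range (J + 1), (if (x - y).natAbs < 2 ^ k then
      ((x - y).natAbs : ℝ) / 2 ^ k else 0)
  unfold eg
  rw [h2, abs_le]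
  rw [abs_le] at h1
  constructor <;> nlinarith

lemma sum_close (J : ℕ) (S : Finset ℤ) (μ ν : ℤ → ℝ) (hμ : ∀ x, 0 ≤ μ x) (hν : ∀ x, 0 ≤ ν x)
    (h1 : ∑ x ∈ S, μ x = 1) (h2 : ∑ x ∈ S, ν x = 1) :
    |(∑ x ∈ S, ∑ y ∈ S, μ x * ν y * eg J x y) -
      Real.log 2 * ∑ x ∈ S, ∑ y ∈ S, μ x * ν y * E J x y| ≤ 3 := by
  have e1 : (∑ x ∈ S, ∑ y ∈ S, μ x * ν y * eg J x y) -
      Real.log 2 * ∑ x ∈ S, ∑ y ∈ S, μ x * ν y * E J x y =
      ∑ x ∈ S, ∑ y ∈ S, μ x * ν y * (eg J x y - Real.log 2 * E J x y) := by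
    rw [mul_sum, ← sum_sub_distrib]
    refine sum_congr rfl fun x _ => ?_
    rw [mul_sum, ← sum_sub_distrib]
    refine sum_congr rfl fun y _ => ?_
    ring
  have e2 : ∑ x ∈ S, ∑ y ∈ S, μ x * ν y * (3 : ℝ) = 3 := by
    have : ∀ x ∈ S, ∑ y ∈ S, μ x * ν y * (3 : ℝ) = μ x * 3 := by
      intro x _
      rw [← sum_mul, ← mul_sum, h2, mul_one]
    rw [sum_congr rfl this, ← sum_mul, h1, one_mul]
  rw [e1]
  refine (abs_sum_le_sum_abs _ _).trans (le_trans (sum_le_sum fun x _ =>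
    abs_sum_le_sum_abs _ _) (le_trans ?_ (le_of_eq e2)))
  refine sum_le_sum fun x _ => sum_le_sum fun y _ => ?_
  rw [abs_mul, abs_of_nonneg (mul_nonneg (hμ x) (hν y))]
  exact mul_le_mul_of_nonneg_left (close J x y) (mul_nonneg (hμ x) (hν y))

end Pool.LQ.PSD80

namespace Pool.LQ

open Finset Real PSD80

/-- (PSD) The logarithmic kernel is positive definite up to a constant. -/
theorem psd : PSDStmt := by
  refine ⟨6, ?_⟩
  intro J S μ ν hμ hν h1 h2
  have hl0 : 0 < Real.log 2 := Real.log_pos (by norm_num)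
  have a1 := abs_le.mp (sum_close J S μ ν hμ hν h1 h2)
  have a2 := abs_le.mp (sum_close J S μ μ hμ hμ h1 h1)
  have a3 := abs_le.mp (sum_close J S ν ν hν hν h2 h2)
  have a4 := mul_le_mul_of_nonneg_left (crossE J S μ ν) hl0.le
  linarith [a1.2, a2.1, a3.1]

end Pool.LQ
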