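import Pool.Agent.H60.LQ.Cfg
import Pool.Agent.H80.KTH.CFG
import Pool.Agent.H32.Dense.Fam

/-!
# Every family has a configuration of three lines: exact entropies and energies
-/

set_option autoImplicit false

namespace Pool.LQ.CFG280

open Finset Real
open Pool.Agent.H49.Ent Pool.Agent.H32.Dense Pool.KTH
open Pool.Agent.H24.KTH (dsv lvv lev cap Yf kp)

section Fam

variable {d J : ℕ} {Ω : Type} [Fintype Ω] {ζ : Type} {p : Ω → ℝ} {Z : Ω → ζ}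
  {v : Ω → Fin d → ℤ} {u : Ω → Fin d → ℝ} {τ : Ω → ℤ}

lemma log_pow2 : Real.log ((2 ^ J : ℕ) : ℝ) = lm J := by
  unfold lm
  push_cast
  rw [Real.log_pow]

lemma kf_eq : lm J - Kf (2 ^ J) p (bv Z v) τ = CH p τ (bv Z v) := by
  unfold Kf
  rw [log_pow2]
  ring

lemma tri_time2' (hp : ∀ ω, 0 ≤ p ω) :
    CH (tri p (bv Z v)) (fun w => τ w.1.2) (fun w => ((bv Z v w.1.2, w.1.1), w.2)) =
      CH p τ (bv Z v) := by
  rw [← CH_dbl_2 (b := bv Z v) hp τ (fun w => w)]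
  exact CH_glue_fst (dbl_nonneg hp) hp (dbl_law hp) (fun w => τ w.2)
    (Y := fun w => (bv Z v w.2, w.1)) (fun w => w) (fun w w' _ _ e => by
      simp only [Prod.mk.injEq] at e
      simp only [e.2])

lemma pC_tr' (h : IsFam (2 ^ J) p Z v u τ) :
    CH (pC (2 ^ J) p Z v u τ) (fun w => τ w.2.1.2)
      (fun w => (((bv Z v w.2.1.2, w.2.1.1), w.2.2), w.1)) = CH p τ (bv Z v) := by
  have hp := h.hp
  rw [← tri_time2' (Z := Z) (v := v) (τ := τ) hp]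
  exact CH_glue_snd (pP_nonneg hp) (tri_nonneg hp) (lawC hp) (fun w => τ w.1.2)
    (Y := fun w => ((bv Z v w.1.2, w.1.1), w.2)) (fun w => w) (fun w w' _ _ e => by
      simp only [Prod.mk.injEq] at e
      simp only [e.1.2])

lemma pP_s' (h : IsFam (2 ^ J) p Z v u τ) :
    CH (pP (2 ^ J) p Z v u τ) (fun w => τ w.1.1.2)
      (fun w => (((bv Z v w.1.1.2, w.1.1.1), w.1.2), w.2)) = CH p τ (bv Z v) := by
  have hp := h.hp
  rw [← tri_time2' (Z := Z) (v := v) (τ := τ) hp]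
  exact CH_glue_fst (tri_nonneg hp) (dbl_nonneg hp) (lawP hp) (fun w => τ w.1.2)
    (Y := fun w => ((bv Z v w.1.2, w.1.1), w.2)) (fun w => w) (fun w w' _ _ e => by
      simp only [Prod.mk.injEq] at e
      simp only [e.1.2])

lemma gp_le {x y : ℤ} (hx : 0 ≤ x ∧ x < ((2 ^ J : ℕ) : ℤ)) (hy : 0 ≤ y ∧ y < ((2 ^ J : ℕ) : ℤ)) :
    gp J x y ≤ 1 + ell (2 ^ J) x y := by
  have hl1 : Real.log 2 ≤ 1 := by linarith [Real.log_two_lt_d9]
  have hx0 : (0 : ℝ) ≤ x := by exact_mod_cast hx.1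
  have hy0 : (0 : ℝ) ≤ y := by exact_mod_cast hy.1
  have hx1 : (x : ℝ) < 2 ^ J := by exact_mod_cast hx.2
  have hy1 : (y : ℝ) < 2 ^ J := by exact_mod_cast hy.2
  have h1 : (1 : ℝ) ≤ 2 ^ J := one_le_pow₀ (by norm_num)
  have h2 : max |(x : ℝ) - y| 1 ≤ 2 ^ J :=
    max_le (abs_le.mpr ⟨by linarith, by linarith⟩) h1
  have h3 : (0 : ℝ) < max |(x : ℝ) - y| 1 := lt_of_lt_of_le one_pos (le_max_right _ _)
  have h4 : 1 ≤ (2 : ℝ) ^ J / max |(x : ℝ) - y| 1 := by rw [one_le_div h3]; exact h2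
  unfold gp ell
  rw [max_comm (1 : ℝ)]
  push_cast
  calc Real.log (1 + 2 ^ J / max |(x : ℝ) - y| 1) ≤
      Real.log (2 * (2 ^ J / max |(x : ℝ) - y| 1)) := by
        apply Real.log_le_log (by linarith)
        linarith
    _ = Real.log 2 + Real.log (2 ^ J / max |(x : ℝ) - y| 1) :=
        Real.log_mul (by norm_num) (by linarith)
    _ ≤ _ := by linarith

lemma gp_symm (x y : ℤ) : gp J x y = gp J y x := by
  unfold gp
  rw [abs_sub_comm]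

/-- A pair of copies contributes at most `Gf + 1`. -/
lemma pair_le {Ω' : Type} [Fintype Ω'] {q : Ω' → ℝ} (h : IsFam (2 ^ J) p Z v u τ)
    (hq : ∀ w, 0 ≤ q w) {pr : Ω' → Ω × Ω} (hm : Marg q (dbl p (bv Z v)) pr) :
    Ex q (fun w => gp J (τ (pr w).1) (τ (pr w).2)) ≤ Gf (2 ^ J) p (bv Z v) τ + 1 := by
  have hp := h.hp
  have h1 : Ex q (fun w => gp J (τ (pr w).1) (τ (pr w).2)) =
      Ex (dbl p (bv Z v)) (fun w => gp J (τ w.1) (τ w.2)) :=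
    hm.ex (fun w => gp J (τ w.1) (τ w.2))
  rw [h1]
  have h2 : Ex (dbl p (bv Z v)) (fun w => gp J (τ w.1) (τ w.2)) ≤
      Ex (dbl p (bv Z v)) (fun w => ell (2 ^ J) (τ w.1) (τ w.2) + 1) := by
    refine Ex_mono (dbl_nonneg hp) fun w hw => ?_
    have := gp_le (h.hτ _ ((dbl_fst hp).pos (dbl_nonneg hp) hw))
      (h.hτ _ ((dbl_snd hp).pos (dbl_nonneg hp) hw))
    linarith
  refine h2.trans (le_of_eq ?_)
  rw [Ex_add, Ex_const]
  · rfl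
  · rw [(dbl_fst hp).sum]
    exact h.h1

lemma tri_13 (hp : ∀ ω, 0 ≤ p ω) :
    Marg (tri p (bv Z v)) (dbl p (bv Z v)) (fun w => (w.1.1, w.2)) := by
  have h1 := (tri_cycle hp (b := bv Z v)).comp (tri_fst hp)
  have h2 := (tri_cycle hp (b := bv Z v)).comp h1
  exact h2.comp (dbl_symm p (bv Z v))

lemma tri_23 (hp : ∀ ω, 0 ≤ p ω) :
    Marg (tri p (bv Z v)) (dbl p (bv Z v)) (fun w => (w.1.2, w.2)) :=
  (tri_cycle hp (b := bv Z v)).comp (tri_fst hp)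

end Fam

section Main

variable {d J : ℕ} (G : Fm d J)

theorem en_le {C : ℝ} (hC : Ex (pC (2 ^ J) G.p G.Z G.v G.u G.τ) (fun w =>
      gp J (G.τ w.1.2.2) (G.τ w.1.1.1.2) +
      gp J (G.τ w.1.2.2) (G.τ w.1.1.2) + gp J (G.τ w.2.2) (G.τ w.1.1.1.2 +
        ct (G.τ w.1.1.1.1) (G.τ w.1.1.1.2) (G.τ w.1.1.2) (G.τ w.1.2.2))) ≤
      C * (Gf (2 ^ J) G.p (bv G.Z G.v) G.τ + 1)) :
    en (CFG80.cfg G) ≤ (C + 7) * (Gf (2 ^ J) G.p (bv G.Z G.v) G.τ + 1) := by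
  have h := G.isFam
  have hp := h.hp
  have hq := pC_nonneg (M := 2 ^ J) (Z := G.Z) (v := G.v) (u := G.u) (τ := G.τ) hp
  have hF := pC_fst (M := 2 ^ J) (Z := G.Z) (v := G.v) (u := G.u) (τ := G.τ) hp
  have hS := pC_snd (M := 2 ^ J) (Z := G.Z) (v := G.v) (u := G.u) (τ := G.τ) hp
  have hPF := pP_fst (M := 2 ^ J) (Z := G.Z) (v := G.v) (u := G.u) (τ := G.τ) hp
  have hPS := pP_snd (M := 2 ^ J) (Z := G.Z) (v := G.v) (u := G.u) (τ := G.τ) hp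
  rw [Ex_add, Ex_add] at hC
  have a1 : (CFG80.cfg G).eg (CFG80.cfg G).t (CFG80.cfg G).s ≤
      Gf (2 ^ J) G.p (bv G.Z G.v) G.τ + 1 :=
    pair_le h hq (pr := fun w => (w.1.1.1.1, w.1.1.1.2)) (hF.comp (hPF.comp (tri_fst hp)))
  have a2 : (CFG80.cfg G).eg (CFG80.cfg G).t₁ (CFG80.cfg G).t ≤
      Gf (2 ^ J) G.p (bv G.Z G.v) G.τ + 1 := by
    refine le_trans (le_of_eq ?_) (pair_le h hq (pr := fun w => (w.1.1.1.1, w.1.1.2))
      (hF.comp (hPF.comp (tri_13 hp))))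
    exact Ex_eqOn hq fun w _ => gp_symm _ _
  have a3 : (CFG80.cfg G).eg (CFG80.cfg G).t₁ (CFG80.cfg G).s ≤
      Gf (2 ^ J) G.p (bv G.Z G.v) G.τ + 1 := by
    refine le_trans (le_of_eq ?_) (pair_le h hq (pr := fun w => (w.1.1.1.2, w.1.1.2))
      (hF.comp (hPF.comp (tri_23 hp))))
    exact Ex_eqOn hq fun w _ => gp_symm _ _
  have a4 : (CFG80.cfg G).eg (CFG80.cfg G).r (CFG80.cfg G).t ≤
      Gf (2 ^ J) G.p (bv G.Z G.v) G.τ + 1 := by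
    refine le_trans (le_of_eq ?_) (pair_le h hq (pr := fun w => (w.1.2.1, w.1.2.2))
      (hF.comp hPS))
    refine Ex_eqOn hq fun w hw => ?_
    have s := (pP_supp h (pC_supp h hw).1).2.2.1.2.1
    change gp J (G.τ w.1.2.2) (G.τ w.1.1.1.1) = gp J (G.τ w.1.2.1) (G.τ w.1.2.2)
    rw [s, gp_symm]
  have a5 : (CFG80.cfg G).eg (CFG80.cfg G).tr (CFG80.cfg G).s ≤
      Gf (2 ^ J) G.p (bv G.Z G.v) G.τ + 1 := by
    refine le_trans (le_of_eq ?_) (pair_le h hq (pr := fun w => (w.2.1.1, w.2.1.2))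
      (hS.comp (tri_fst hp)))
    refine Ex_eqOn hq fun w hw => ?_
    have s := (pC_supp h hw).2.2.2.1
    change gp J (G.τ w.2.1.2) (G.τ w.1.1.1.2) = gp J (G.τ w.2.1.1) (G.τ w.2.1.2)
    rw [s, gp_symm]
  have a6 : (CFG80.cfg G).eg (CFG80.cfg G).ta (CFG80.cfg G).s ≤
      Gf (2 ^ J) G.p (bv G.Z G.v) G.τ + 1 := by
    refine le_trans (le_of_eq ?_) (pair_le h hq (pr := fun w => (w.2.1.1, w.2.2))
      (hS.comp (tri_13 hp)))
    refine Ex_eqOn hq fun w hw => ?_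
    have s := (pC_supp h hw).2.2.2.1
    change gp J (G.τ w.2.2) (G.τ w.1.1.1.2) = gp J (G.τ w.2.1.1) (G.τ w.2.2)
    rw [s, gp_symm]
  have a7 : (CFG80.cfg G).eg (CFG80.cfg G).ta (CFG80.cfg G).tr ≤
      Gf (2 ^ J) G.p (bv G.Z G.v) G.τ + 1 := by
    refine le_trans (le_of_eq ?_) (pair_le h hq (pr := fun w => (w.2.1.2, w.2.2))
      (hS.comp (tri_23 hp)))
    exact Ex_eqOn hq fun w _ => gp_symm _ _
  have b1 : (CFG80.cfg G).eg (CFG80.cfg G).r (CFG80.cfg G).s =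
      Ex (pC (2 ^ J) G.p G.Z G.v G.u G.τ) (fun w => gp J (G.τ w.1.2.2) (G.τ w.1.1.1.2)) := rfl
  have b2 : (CFG80.cfg G).eg (CFG80.cfg G).r (CFG80.cfg G).t₁ =
      Ex (pC (2 ^ J) G.p G.Z G.v G.u G.τ) (fun w => gp J (G.τ w.1.2.2) (G.τ w.1.1.2)) := rfl
  have b3 : (CFG80.cfg G).eg (CFG80.cfg G).ta (CFG80.cfg G).TO =
      Ex (pC (2 ^ J) G.p G.Z G.v G.u G.τ) (fun w => gp J (G.τ w.2.2) (G.τ w.1.1.1.2 +
        ct (G.τ w.1.1.1.1) (G.τ w.1.1.1.2) (G.τ w.1.1.2) (G.τ w.1.2.2))) := rfl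
  unfold en
  rw [b1, b2, b3]
  linarith

theorem okk {C : ℝ} (hC0 : 0 ≤ C) (hC : Ex (pC (2 ^ J) G.p G.Z G.v G.u G.τ) (fun w =>
      gp J (G.τ w.1.2.2) (G.τ w.1.1.1.2) +
      gp J (G.τ w.1.2.2) (G.τ w.1.1.2) + gp J (G.τ w.2.2) (G.τ w.1.1.1.2 +
        ct (G.τ w.1.1.1.1) (G.τ w.1.1.1.2) (G.τ w.1.1.2) (G.τ w.1.2.2))) ≤
      C * (Gf (2 ^ J) G.p (bv G.Z G.v) G.τ + 1)) :
    Okk (CFG80.cfg G) G.L G.sb (Kf (2 ^ J) G.p (bv G.Z G.v) G.τ)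
      ((C + 7) * (Gf (2 ^ J) G.p (bv G.Z G.v) G.τ + 1)) := by
  have h := G.isFam
  have hp := h.hp
  have hq := pC_nonneg (M := 2 ^ J) (Z := G.Z) (v := G.v) (u := G.u) (τ := G.τ) hp
  have hqP := pP_nonneg (M := 2 ^ J) (Z := G.Z) (v := G.v) (u := G.u) (τ := G.τ) hp
  have hF := pC_fst (M := 2 ^ J) (Z := G.Z) (v := G.v) (u := G.u) (τ := G.τ) hp
  set K := Kf (2 ^ J) G.p (bv G.Z G.v) G.τ with hK
  have hKe : lm J - K = CH G.p G.τ (bv G.Z G.v) := kf_eq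
  have he : lm J - K ≤ CH G.p G.τ (bv G.Z G.v) := hKe.le
  have ho : (CFG80.cfg G).Ok G.L G.sb (10 * K) := CFG80.ok G he
  have hG0 := Gf_nonneg h
  refine
    { K0 := Kf_nonneg h
      G0 := by positivity
      cp := ?_
      cl := ?_
      cv := ?_
      cs := ?_
      ct₁ := ?_
      cr := ?_
      ctr := ?_
      cta := ?_
      ci := ?_
      cst := ?_
      l0 := ho.l0
      l1 := ho.l1
      l2 := ho.l2
      sC := ho.sC
      sA := ho.sA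
      sB := ho.sB
      sC₂ := ho.sC₂
      sA₂ := ho.sA₂
      sym := ho.sym
      ge := en_le G hC }
  · have h1 := CFG80.cpP h he
    have h2 := hF.CH
      (fun w => ((G.v w.1.1.1, G.v w.2.1), G.τ w.1.1.1)) (fun w => G.Z w.1.1.1)
    refine le_trans ?_ (h1.trans (le_of_eq h2.symm))
    unfold Fm.L Fm.sb
    linarith
  · refine le_trans ?_ (CFG80.clC h he)
    unfold Fm.L Fm.sb
    linarith
  · refine le_trans ?_ (CFG80.cvC h he)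
    unfold Fm.L Fm.sb
    linarith
  · have h1 := CFG80.csP h he
    have h2 := hF.CH (fun w => G.τ w.1.1.2)
      (fun w => ((G.v w.1.1.1, G.v w.2.1), G.τ w.1.1.1, G.Z w.1.1.1))
    exact h1.trans (le_of_eq h2.symm)
  · rw [hKe, ← pP_t₁ h, ← CFG80.glueC h (fun w => G.τ w.1.2)
      (Y := fun w => ((bv G.Z G.v w.1.2, w.1.1), w.2)) (fun w => w) (by
        intro w w' a b e
        simp only [Prod.mk.injEq] at e
        simp only [e.1.2])]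
    refine CH_mono_cond hq fun w w' _ _ e => ?_
    simp only [Prod.mk.injEq] at e
    obtain ⟨⟨⟨e0, e1⟩, e2⟩, e3⟩ := e
    simp [Cf.v3, CFG80.cfg, e1, e2, e3]
  · rw [hKe, ← pP_r h, ← CFG80.glueC h (fun w => G.τ w.2.2)
      (Y := fun w => ((bv G.Z G.v w.2.2, w.2.1), w.1)) (fun w => w) (by
        intro w w' a b e
        simp only [Prod.mk.injEq] at e
        simp only [e.2])]
    refine CH_mono_cond hq fun w w' _ _ e => ?_
    simp only [Prod.mk.injEq] at e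
    obtain ⟨⟨⟨e0, e1⟩, e2⟩, e3⟩ := e
    simp [Cf.v3, CFG80.cfg, e1, e2, e3]
  · rw [hKe, ← pC_tr' h]
    refine CH_mono_cond hq fun w w' _ _ e => ?_
    simp only [Prod.mk.injEq] at e
    obtain ⟨⟨⟨e0, e1⟩, e2⟩, e3⟩ := e
    simp [Cf.v3, CFG80.cfg, e1, e2, e3]
  · rw [hKe, ← pC_ρ h]
    refine CH_mono_cond hq fun w w' _ _ e => ?_
    simp only [Prod.mk.injEq] at e
    obtain ⟨⟨e0, e1⟩, e2⟩ := e
    simp [Cf.v3, CFG80.cfg, e1, e2]
  · -- the coefficient is independent of the line 2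
    have hdet : Det (pP (2 ^ J) G.p G.Z G.v G.u G.τ)
        (fun w => ((G.v w.1.1.1, G.v w.2.1), (G.τ w.1.1.1, G.τ w.1.1.2), G.Z w.1.1.1))
        (fun w => av (2 ^ J) G.Z G.v G.u G.τ w.1.1.2) := by
      intro w w' a b e
      simp only [Prod.mk.injEq] at e
      have s1 := tri_supp h (pP_supp h a).1
      have s2 := tri_supp h (pP_supp h b).1
      refine h.av_det _ _ s1.1.2.1 s2.1.2.1 ?_
      simp only [bv, Prod.mk.injEq]
      rw [s1.2.1.1, s1.2.1.2.1, s2.2.1.1, s2.2.1.2.1]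
      exact ⟨⟨e.1.1, e.2.2⟩, e.2.1.2⟩
    have e1 := CFG80.glueC h (fun w => ct (G.τ w.1.1.1) (G.τ w.1.1.2) (G.τ w.1.2) (G.τ w.2.2))
      (Y := fun w => ((G.v w.1.1.1, G.v w.2.1), (G.τ w.1.1.1, G.τ w.1.1.2), G.Z w.1.1.1))
      (fun w => w) hdet
    have e2 := hF.CH (fun w => ct (G.τ w.1.1.1) (G.τ w.1.1.2) (G.τ w.1.2) (G.τ w.2.2))
      (fun w => ((G.v w.1.1.1, G.v w.2.1), (G.τ w.1.1.1, G.τ w.1.1.2), G.Z w.1.1.1))
    refine (le_of_eq (e2.trans e1.symm)).trans ?_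
    refine CH_mono_cond hq fun w w' _ _ e => ?_
    simp only [Prod.mk.injEq] at e
    obtain ⟨⟨⟨e0, e1⟩, ⟨e2, e3⟩, e4⟩, e5⟩ := e
    simp [Cf.v3, CFG80.cfg, e0, e1, e2, e3, e4, e5]
  · have e1 := hF.CH (fun w => G.τ w.1.1.2)
      (fun w => ((G.v w.1.1.1, G.v w.2.1), (G.τ w.1.1.1, G.τ w.1.2, G.τ w.2.2), G.Z w.1.1.1))
    refine le_trans ?_ (le_of_eq e1.symm)
    rw [hKe, ← pP_s' h]
    refine CH_mono_cond hqP fun w w' _ _ e => ?_
    simp only [Prod.mk.injEq] at e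
    obtain ⟨⟨⟨e0, e1⟩, e2⟩, e3⟩ := e
    simp [e1, e2, e3]

end Main

end Pool.LQ.CFG280

namespace Pool.LQ

open Pool.KTH

/-- (CFG2) Every family has a configuration. -/
theorem cfg2 (hE : ENG2Stmt) : CFG2Stmt := by
  obtain ⟨C, hC0, hC⟩ := hE
  refine ⟨C + 7, by linarith, ?_⟩
  intro d J G
  have h := hC d J G.Ω G.ζ G.p G.Z G.v G.u G.τ G.isFam
  exact ⟨CFG80.cfg G, CFG280.okk G hC0 h, CFG80.y01_eq G⟩

end Pool.LQ
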